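import Pool.Agent.Y148.OD.Stm4
import Pool.Agent.Y148.OD.SC2

/-!
# Job OD-21 of project OD (helper148): generic hyperplanes through distinct points (helper246)
-/

set_option autoImplicit false
set_option linter.unusedSectionVars false

namespace Pool.Agent.Y246.OD

open MvPolynomial Pool.Agent.Y148.OD

section aux

variable {Ω : Type} [Field Ω] {τ ι : Type}

theorem cancel1 {m B : ℕ} {x : ℕ∞} (h : ((m + 1 : ℕ) : ℕ∞) + x ≤ ((B + 1 : ℕ) : ℕ∞) + (m : ℕ∞)) :
    x ≤ (B : ℕ∞) := by
  rcases eq_or_ne x ⊤ with rfl | hx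
  · rw [add_top, top_le_iff] at h
    exact absurd h (by exact_mod_cast ENat.natCast_ne_top (B + 1 + m))
  · lift x to ℕ using hx
    norm_cast at *
    omega

theorem cancel2 {m : ℕ} {x r : ℕ∞} (h : r + (m : ℕ∞) ≤ ((m + 1 : ℕ) : ℕ∞) + x) : r ≤ x + 1 := by
  rcases eq_or_ne x ⊤ with rfl | hx
  · simp
  · lift x to ℕ using hx
    have hr : r ≠ ⊤ := by
      rintro rfl
      rw [top_add, top_le_iff] at h
      exact absurd h (by exact_mod_cast ENat.natCast_ne_top (m + 1 + x))
    lift r to ℕ using hr
    norm_cast at *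
    omega

theorem cancel3 {m : ℕ} {x r : ℕ∞} (h : r + ((m + 1 : ℕ) : ℕ∞) ≤ ((m + 1 : ℕ) : ℕ∞) + x) :
    r ≤ x := by
  rcases eq_or_ne x ⊤ with rfl | hx
  · simp
  · lift x to ℕ using hx
    have hr : r ≠ ⊤ := by
      rintro rfl
      rw [top_add, top_le_iff] at h
      exact absurd h (by exact_mod_cast ENat.natCast_ne_top (m + 1 + x))
    lift r to ℕ using hr
    norm_cast at *
    omega

theorem adj_mono (K : Subfield Ω) {S T : Set Ω} (h : S ⊆ T) : adj K S ≤ adj K T :=
  adj_le (le_adj_left _ _) (h.trans (subset_adj _ _))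

theorem adj_comm (K : Subfield Ω) (S T : Set Ω) : adj (adj K S) T = adj (adj K T) S := by
  rw [adj_adj, adj_adj, Set.union_comm]

theorem adj_empty (K : Subfield Ω) : adj K ∅ = K :=
  le_antisymm (adj_le le_rfl (Set.empty_subset _)) (le_adj_left _ _)

theorem countable_cof [Countable τ] [Finite ι] (J : Set ι) (y : ι → τ → Ω) :
    (cof J y).Countable := by
  have h : (Set.range fun p : ι × τ => y p.1 p.2).Countable := Set.countable_range _
  refine h.mono ?_
  rintro c ⟨i, -, a, rfl⟩
  exact ⟨(i, a), rfl⟩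

theorem cof_congr {J : Set ι} {u u' : ι → τ → Ω} (h : ∀ j ∈ J, u j = u' j) :
    cof J u = cof J u' := by
  ext c
  constructor
  · rintro ⟨i, hi, a, rfl⟩
    exact ⟨i, hi, a, by rw [h i hi]⟩
  · rintro ⟨i, hi, a, rfl⟩
    exact ⟨i, hi, a, by rw [h i hi]⟩

end aux

/-- A generic hyperplane through one point. -/
theorem exists_u (hComb : StmComb) {Ω : Type} [Field Ω] [IsAlgClosed Ω] [Uncountable Ω]
    [CharZero Ω] {τ : Type} [Fintype τ] (K₁ : Subfield Ω) (hK₁ : Countable K₁) (v : τ → Ω) (b : τ)
    (hb : v b = 1) (hv : ∀ a, v a ∈ K₁) (m : ℕ) (hm : Fintype.card τ = m + 1) :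
    ∃ u : τ → Ω, ∑ a, u a * v a = 0 ∧
      (∀ F : Subfield Ω, F ≤ K₁ → rk F (Set.range v) ≠ 0 →
        ((m + 1 : ℕ) : ℕ∞) ≤ rk F (Set.range u)) ∧
      (∀ F : Subfield Ω, F ≤ K₁ → (m : ℕ∞) ≤ rk F (Set.range u)) ∧
      ∀ F : Subfield Ω, (∀ a, v a ∈ F) → rk F (Set.range u) ≤ (m : ℕ∞) := by
  classical
  obtain ⟨t, ht⟩ := Pool.Agent.Y141.OD.exists_indep K₁ hK₁ {a : τ // a ≠ b}
  have hcard : Fintype.card {a : τ // a ≠ b} = m := by
    rw [Fintype.card_subtype_compl, Fintype.card_subtype_eq, hm]
    rfl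
  set w : Ω := ∑ a : {a : τ // a ≠ b}, t a * v a with hw
  set u : τ → Ω := fun a => if h : a = b then -w else t ⟨a, h⟩ with hu
  have hub : u b = -w := by simp [hu]
  have hut : ∀ a : {a : τ // a ≠ b}, u a = t a := fun a => by
    simp only [hu]
    rw [dif_neg a.2]
  have hsplit : ∀ g : τ → Ω, ∑ a, g a = g b + ∑ a : {a : τ // a ≠ b}, g a := by
    intro g
    rw [← Finset.add_sum_erase _ _ (Finset.mem_univ b)]
    congr 1
    rw [← Finset.sum_subtype (Finset.univ.erase b) (p := fun a => a ≠ b) (by simp)]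
  have htr : ∀ F : Subfield Ω, rk F (Set.range t) ≤ (m : ℕ∞) := by
    intro F
    rw [← Set.image_univ]
    refine (rk_le_encard _ _).trans ((Set.encard_image_le _ _).trans ?_)
    rw [Set.encard_univ, ENat.card_eq_coe_fintype_card, hcard]
  have htu : Set.range t ⊆ Set.range u := by
    rintro x ⟨a, rfl⟩
    exact ⟨a, hut a⟩
  have htK : (m : ℕ∞) ≤ rk K₁ (Set.range t) := by
    refine le_rk_iff.mpr ⟨Set.range t, subset_rfl, ht.to_subtype_range, ?_⟩
    rw [← Set.image_univ, Function.Injective.encard_image ht.injective, Set.encard_univ,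
      ENat.card_eq_coe_fintype_card, hcard]
  refine ⟨u, ?_, ?_, ?_, ?_⟩
  · rw [hsplit, hub, hb, mul_one]
    have h1 : ∑ a : {a : τ // a ≠ b}, u a * v a = w := by
      rw [hw]
      exact Finset.sum_congr rfl fun a _ => by rw [hut]
    rw [h1, neg_add_cancel]
  · intro F hF hr
    have h1 := hComb Ω {a : τ // a ≠ b} K₁ (fun a => v a) t (fun a => hv a) ht F hF ?_
    · rw [hcard] at h1
      refine h1.trans (rk_le_of_mem ?_)
      rintro x (hx | hx)
      · exact subset_adj _ _ (htu hx)
      · rw [Set.mem_singleton_iff] at hx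
        have h2 : x = -(u b) := by rw [hub, neg_neg, hx]
        rw [h2]
        exact neg_mem (subset_adj _ _ ⟨b, rfl⟩)
    · intro h0
      apply hr
      refine le_antisymm (le_trans (rk_le_of_mem ?_) (le_of_eq h0)) zero_le
      rintro x ⟨a, rfl⟩
      by_cases ha : a = b
      · rw [ha, hb]
        exact one_mem _
      · exact subset_adj _ _ ⟨⟨a, ha⟩, rfl⟩
  · intro F hF
    exact htK.trans ((rk_anti hF _).trans (rk_mono _ htu))
  · intro F hF
    refine le_trans (rk_le_of_mem ?_) (htr F)
    rintro x ⟨a, rfl⟩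
    by_cases ha : a = b
    · rw [ha, hub]
      refine neg_mem (sum_mem fun a _ => mul_mem (subset_adj _ _ ⟨a, rfl⟩) (le_adj_left _ _ (hF a)))
    · have h2 : u a = t ⟨a, ha⟩ := hut ⟨a, ha⟩
      rw [h2]
      exact subset_adj _ _ ⟨_, rfl⟩

/-- The induction. -/
theorem main (hComb : StmComb) {Ω : Type} [Field Ω] [IsAlgClosed Ω] [Uncountable Ω]
    [CharZero Ω] {τ ι : Type} [Fintype τ] [Fintype ι] [DecidableEq ι] (y : ι → τ → Ω) (b : ι → τ)
    (hb : ∀ i, y i (b i) = 1) (S : Finset ι) : ∀ K : Subfield Ω, Countable K →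
      (∀ B ⊆ S, rk (adj K (cof ((S \ B : Finset ι) : Set ι) y)) (cof (B : Set ι) y) ≤
        ((B.card : ℕ) : ℕ∞)) →
      ∃ (A : Finset ι) (u : ι → τ → Ω), A ⊆ S ∧ (∀ j ∈ A, ∑ a, u j a * y j a = 0) ∧
        rk K (cof (S : Set ι) y) ≤ ((A.card : ℕ) : ℕ∞) ∧
        ((A.card * Fintype.card τ : ℕ) : ℕ∞) ≤ rk K (cof (A : Set ι) u) := by
  induction S using Finset.induction_on with
  | empty =>
    intro K hK H
    refine ⟨∅, y, subset_rfl, by simp, ?_, by simp⟩
    simp [cof_empty, rk_empty]
  | insert j₀ S₀ hj ih =>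
    intro K hK H
    -- the hypothesis for subsets of `S₀`
    have F0 : ∀ B ⊆ S₀, rk (adj (adj K (cof ((S₀ \ B : Finset ι) : Set ι) y)) (Set.range (y j₀)))
        (cof (B : Set ι) y) ≤ ((B.card : ℕ) : ℕ∞) := by
      intro B hB
      have h1 := H B (hB.trans (Finset.subset_insert _ _))
      have hjB : j₀ ∉ B := fun h => hj (hB h)
      rw [Finset.insert_sdiff_of_notMem _ hjB, Finset.coe_insert, cof_insert, Set.union_comm,
        ← adj_adj] at h1
      exact h1
    have F1 : ∀ B ⊆ S₀, rk (adj K (cof ((S₀ \ B : Finset ι) : Set ι) y))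
        (Set.range (y j₀) ∪ cof (B : Set ι) y) ≤ ((B.card + 1 : ℕ) : ℕ∞) := by
      intro B hB
      have h1 := H (insert j₀ B) (Finset.insert_subset_insert _ hB)
      have hjB : j₀ ∉ B := fun h => hj (hB h)
      rw [Finset.insert_sdiff_insert, Finset.sdiff_insert_of_notMem hj, Finset.coe_insert,
        cof_insert, Finset.card_insert_of_notMem hjB] at h1
      exact h1
    have hSc : cof ((insert j₀ S₀ : Finset ι) : Set ι) y = Set.range (y j₀) ∪ cof (S₀ : Set ι) y := by
      rw [Finset.coe_insert, cof_insert]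
    -- small remark
    have F2 : ∀ B ⊆ S₀, rk (adj K (cof ((S₀ \ B : Finset ι) : Set ι) y)) (Set.range (y j₀)) = 0 →
        rk (adj K (cof ((S₀ \ B : Finset ι) : Set ι) y)) (cof (B : Set ι) y) ≤
          ((B.card : ℕ) : ℕ∞) := by
      intro B hB h0
      have h1 := rk_mono (adj K (cof ((S₀ \ B : Finset ι) : Set ι) y))
        (Set.subset_union_right : cof (B : Set ι) y ⊆ Set.range (y j₀) ∪ cof (B : Set ι) y)
      rw [rk_adj_union, h0, zero_add] at h1
      exact h1.trans (F0 B hB)
    by_cases hcase : rk K (Set.range (y j₀)) = 0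
    · obtain ⟨A, u, hA, hu, hr, hru⟩ := ih K hK (fun B hB => F2 B hB (by
        refine le_antisymm ((rk_anti (le_adj_left _ _) _).trans (le_of_eq hcase)) zero_le))
      refine ⟨A, u, hA.trans (Finset.subset_insert _ _), hu, ?_, hru⟩
      rw [hSc]
      refine (rk_union_le _ _ _).trans ?_
      rw [hcase, zero_add]
      exact hr
    · -- the new hyperplane
      have hτ : 0 < Fintype.card τ := Fintype.card_pos_iff.mpr ⟨b j₀⟩
      obtain ⟨m, hm⟩ : ∃ m, Fintype.card τ = m + 1 := ⟨Fintype.card τ - 1, by omega⟩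
      set K₁ := adj K (cof ((insert j₀ S₀ : Finset ι) : Set ι) y) with hK₁
      have hK₁c : Countable K₁ := countable_adj (countable_cof _ _)
      have hyK₁ : ∀ a, y j₀ a ∈ K₁ := fun a => subset_adj _ _
        ⟨j₀, Finset.mem_coe.2 (Finset.mem_insert_self _ _), a, rfl⟩
      obtain ⟨v, hv0, hv1, hv2, hv3⟩ := exists_u hComb K₁ hK₁c (y j₀) (b j₀) (hb j₀) hyK₁ m hm
      have hle : ∀ D : Finset ι, D ⊆ S₀ → adj K (cof (D : Set ι) y) ≤ K₁ := fun D hD =>
        adj_mono K (cof_mono (Finset.coe_subset.2 (hD.trans (Finset.subset_insert _ _))) y)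
      set K' := adj K (Set.range v) with hK'
      have hK'c : Countable K' := countable_adj (Set.countable_range _)
      have hvT : rk K (Set.range v) ≤ ((m + 1 : ℕ) : ℕ∞) := by
        rw [← Set.image_univ]
        refine (rk_le_encard _ _).trans ((Set.encard_image_le _ _).trans ?_)
        rw [Set.encard_univ, ENat.card_eq_coe_fintype_card, hm]
      obtain ⟨A₀, u₀, hA₀, hu₀, hr₀, hru₀⟩ := ih K' hK'c (by
        intro B hB
        set F := adj K (cof ((S₀ \ B : Finset ι) : Set ι) y) with hF
        have e1 : adj K' (cof ((S₀ \ B : Finset ι) : Set ι) y) = adj F (Set.range v) :=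
          adj_comm _ _ _
        rw [e1]
        by_cases h0 : rk F (Set.range (y j₀)) = 0
        · exact (rk_anti (le_adj_left _ _) _).trans (F2 B hB h0)
        · have h1 := hv1 F (hle _ Finset.sdiff_subset) h0
          have h2 : rk F (Set.range v ∪ cof (B : Set ι) y) ≤
              rk F ((Set.range (y j₀) ∪ cof (B : Set ι) y) ∪ Set.range v) := by
            refine rk_mono _ ?_
            rintro x (hx | hx)
            · exact Or.inr hx
            · exact Or.inl (Or.inr hx)
          rw [rk_adj_union F (Set.range v), rk_adj_union F (Set.range (y j₀) ∪ cof (B : Set ι) y)]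
            at h2
          have h3 := hv3 (adj F (Set.range (y j₀) ∪ cof (B : Set ι) y)) (fun a =>
            subset_adj _ _ (Or.inl ⟨a, rfl⟩))
          exact cancel1 ((add_le_add h1 le_rfl).trans (h2.trans (add_le_add (F1 B hB) h3))))
      have hj₀A : j₀ ∉ A₀ := fun h => hj (hA₀ h)
      refine ⟨insert j₀ A₀, Function.update u₀ j₀ v, Finset.insert_subset_insert _ hA₀, ?_, ?_, ?_⟩
      · intro j hjA
        rcases Finset.mem_insert.1 hjA with rfl | hjA
        · rw [Function.update_self]
          exact hv0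
        · have hne : j ≠ j₀ := fun h => hj₀A (h ▸ hjA)
          rw [Function.update_of_ne hne]
          exact hu₀ j hjA
      · rw [Finset.card_insert_of_notMem hj₀A]
        have key : rk K (cof ((insert j₀ S₀ : Finset ι) : Set ι) y) ≤
            rk K' (cof (S₀ : Set ι) y) + 1 := by
          set F := adj K (cof (S₀ : Set ι) y) with hF
          have e2 : rk K (cof ((insert j₀ S₀ : Finset ι) : Set ι) y) =
              rk K (cof (S₀ : Set ι) y) + rk F (Set.range (y j₀)) := by
            rw [hSc, Set.union_comm, rk_adj_union]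
          have e3 : rk K (Set.range v) + rk K' (cof (S₀ : Set ι) y) =
              rk K (cof (S₀ : Set ι) y) + rk F (Set.range v) := by
            rw [← rk_adj_union, Set.union_comm, rk_adj_union]
          by_cases h0 : rk F (Set.range (y j₀)) = 0
          · rw [e2, h0, add_zero]
            have h1 := hv2 F (hle _ subset_rfl)
            refine cancel2 (m := m) ?_
            calc rk K (cof (S₀ : Set ι) y) + (m : ℕ∞) ≤
                rk K (cof (S₀ : Set ι) y) + rk F (Set.range v) := add_le_add le_rfl h1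
              _ = rk K (Set.range v) + rk K' (cof (S₀ : Set ι) y) := e3.symm
              _ ≤ _ := add_le_add hvT le_rfl
          · rw [e2]
            have h1 := hv1 F (hle _ subset_rfl) h0
            have h2 : rk F (Set.range (y j₀)) ≤ 1 := by
              have h3 := F1 ∅ (Finset.empty_subset _)
              rw [Finset.sdiff_empty, Finset.coe_empty, cof_empty, Set.union_empty] at h3
              simpa using h3
            refine add_le_add (cancel3 (m := m) ?_) h2
            calc rk K (cof (S₀ : Set ι) y) + ((m + 1 : ℕ) : ℕ∞) ≤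
                rk K (cof (S₀ : Set ι) y) + rk F (Set.range v) := add_le_add le_rfl h1
              _ = rk K (Set.range v) + rk K' (cof (S₀ : Set ι) y) := e3.symm
              _ ≤ _ := add_le_add hvT le_rfl
        refine key.trans ?_
        push_cast
        exact add_le_add hr₀ le_rfl
      · rw [Finset.coe_insert, cof_insert, Function.update_self, rk_adj_union,
          Finset.card_insert_of_notMem hj₀A]
        have e4 : cof (A₀ : Set ι) (Function.update u₀ j₀ v) = cof (A₀ : Set ι) u₀ :=
          cof_congr fun j hjA => by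
            have hne : j ≠ j₀ := by
              rintro rfl
              exact hj₀A (Finset.mem_coe.1 hjA)
            rw [Function.update_of_ne hne]
        rw [e4]
        have h1 := hv1 K (le_adj_left _ _) hcase
        rw [← hm] at h1
        calc (((A₀.card + 1) * Fintype.card τ : ℕ) : ℕ∞) =
            ((Fintype.card τ : ℕ) : ℕ∞) + ((A₀.card * Fintype.card τ : ℕ) : ℕ∞) := by
              push_cast
              ring
          _ ≤ _ := add_le_add h1 hru₀

/-- **OD-21.** -/
theorem stmDist (hComb : StmComb) : StmDist := by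
  intro Ω _ _ _ _ τ ι _ _ K hK y b hb H R hR
  classical
  obtain ⟨A, u, -, hu, hr, hru⟩ := main hComb y b hb Finset.univ K hK (by
    intro B _
    have h1 := H B
    rwa [← Finset.compl_eq_univ_sdiff, Finset.coe_compl])
  rw [Finset.coe_univ, cof_univ] at hr
  have hRA : R ≤ A.card := by exact_mod_cast hR.trans hr
  obtain ⟨A', hA', hcard⟩ := Finset.exists_subset_card_eq hRA
  refine ⟨A', u, hcard, fun j hj => hu j (hA' hj), ?_⟩
  have h1 : rk K (cof (A : Set ι) u) ≤
      ((Fintype.card τ * (A \ A').card : ℕ) : ℕ∞) + rk K (cof (A' : Set ι) u) := by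
    have e1 : (A : Set ι) = ((A \ A' : Finset ι) : Set ι) ∪ (A' : Set ι) := by
      rw [← Finset.coe_union, Finset.sdiff_union_of_subset hA']
    rw [e1, cof_union]
    refine (rk_union_le _ _ _).trans (add_le_add ?_ le_rfl)
    refine rk_cof_le (A \ A') fun i _ => ?_
    rw [← Set.image_univ]
    refine (rk_le_encard _ _).trans ((Set.encard_image_le _ _).trans ?_)
    rw [Set.encard_univ, ENat.card_eq_coe_fintype_card]
  refine cancel_aux (p := Fintype.card τ * (A \ A').card) (q := R * Fintype.card τ) ?_ le_rfl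
  refine le_trans (le_of_eq ?_) (hru.trans h1)
  have h2 : (A \ A').card + R = A.card := by
    rw [← hcard]
    exact Finset.card_sdiff_add_card_eq_card hA'
  rw [← h2]
  congr 1
  ring

end Pool.Agent.Y246.OD
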